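import Mathlib

set_option autoImplicit false

/-!
# The quantities measuring the weak Banach-Saks property need not agree

For `c ∈ [0, 1]` let `e_k` be the function on the pairs `(F₁, F₂)` of finite Schreier sets with
`F₁ < F₂` whose value at `(F₁, F₂)` is `1_{F₁}(k) - c 1_{F₂}(k)`.  For the set `A = {e_k}` one has
`sm A = 1 / 2`, `wbs A = 1 + c` and `swu A = 1`.
-/

namespace Pool.Agent.Results.MP_b2e8e7_an.SchreierFunctionals

open Filter Topology

section Definitions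

variable {X : Type*} [NormedAddCommGroup X] [NormedSpace ℝ X]

/-- Weak convergence of a sequence.  (All sequences are indexed from `0`, so that the term with
index `i` is the term with number `i + 1` of the usual indexing.) -/
def WeaklyConverges (x : ℕ → X) (x₀ : X) : Prop :=
  ∀ f : X →L[ℝ] ℝ, Tendsto (fun k => f (x k)) atTop (𝓝 (f x₀))

/-- `ca (x_k) = inf_n sup {‖x_k - x_l‖ : k, l ≥ n}`. -/
noncomputable def ca (x : ℕ → X) : ℝ :=
  ⨅ n : ℕ, sSup {r : ℝ | ∃ k l : ℕ, n ≤ k ∧ n ≤ l ∧ r = ‖x k - x l‖}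

/-- The Cesaro means. -/
noncomputable def cesaro (x : ℕ → X) (k : ℕ) : X :=
  (1 / ((k : ℝ) + 1)) • ∑ i ∈ Finset.range (k + 1), x i

/-- `cca (x_k)`. -/
noncomputable def cca (x : ℕ → X) : ℝ := ca (cesaro x)

/-- The infimum of `cca` over all subsequences. -/
noncomputable def ccaInf (x : ℕ → X) : ℝ :=
  ⨅ φ : {φ : ℕ → ℕ // StrictMono φ}, cca (x ∘ φ.1)

/-- `wu (x_k)` for a sequence converging weakly to `x₀`. -/
noncomputable def wu (x : ℕ → X) (x₀ : X) : ℝ :=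
  sInf {ε : ℝ | 0 < ε ∧ ∃ n : ℕ, ∀ f : X →L[ℝ] ℝ, ‖f‖ ≤ 1 →
    {k : ℕ | ε < |f (x k - x₀)|}.encard ≤ n}

/-- The infimum of `wu` over all subsequences. -/
noncomputable def wuInf (x : ℕ → X) (x₀ : X) : ℝ :=
  ⨅ φ : {φ : ℕ → ℕ // StrictMono φ}, wu (x ∘ φ.1) x₀

/-- The sequence `u` generates an `ℓ₁`-spreading model with constant `δ`. -/
def GeneratesL1 (u : ℕ → X) (δ : ℝ) : Prop :=
  ∀ F : Finset ℕ, F.Nonempty → (∀ i ∈ F, F.card ≤ i + 1) → ∀ α : ℕ → ℝ,
    δ * ∑ i ∈ F, |α i| ≤ ‖∑ i ∈ F, α i • u i‖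

/-- `wbs A`. -/
noncomputable def wbs (A : Set X) : ℝ :=
  sSup {r : ℝ | ∃ x : ℕ → X, (∀ k, x k ∈ A) ∧ (∃ x₀, WeaklyConverges x x₀) ∧ r = ccaInf x}

/-- `swu A`. -/
noncomputable def swu (A : Set X) : ℝ :=
  sSup {r : ℝ | ∃ (x : ℕ → X) (x₀ : X), (∀ k, x k ∈ A) ∧ WeaklyConverges x x₀ ∧
    r = wuInf x x₀}

/-- `sm A`. -/
noncomputable def sm (A : Set X) : ℝ :=
  sSup {δ : ℝ | 0 < δ ∧ ∃ (x : ℕ → X) (x₀ : X), (∀ k, x k ∈ A) ∧ WeaklyConverges x x₀ ∧
    GeneratesL1 (fun k => x k - x₀) δ}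

end Definitions

section General

variable {X : Type*} [NormedAddCommGroup X]

theorem ca_nonneg (x : ℕ → X) : 0 ≤ ca x :=
  Real.iInf_nonneg fun n => Real.sSup_nonneg (by rintro _ ⟨k, l, _, _, rfl⟩; exact norm_nonneg _)

theorem ca_le {x : ℕ → X} {B : ℝ} (h : ∀ k l, ‖x k - x l‖ ≤ B) : ca x ≤ B := by
  refine (ciInf_le ⟨0, ?_⟩ 0).trans ?_
  · rintro _ ⟨n, rfl⟩
    exact Real.sSup_nonneg (by rintro _ ⟨k, l, _, _, rfl⟩; exact norm_nonneg _)
  · exact csSup_le ⟨_, 0, 0, le_rfl, le_rfl, rfl⟩ (by rintro _ ⟨k, l, _, _, rfl⟩; exact h k l)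

theorem le_ca {x : ℕ → X} {B b : ℝ} (h : ∀ k l, ‖x k - x l‖ ≤ B)
    (h' : ∀ n : ℕ, ∀ η : ℝ, 0 < η → ∃ k l, n ≤ k ∧ n ≤ l ∧ b - η ≤ ‖x k - x l‖) : b ≤ ca x := by
  apply le_ciInf
  intro n
  apply le_of_forall_pos_le_add
  intro η hη
  obtain ⟨k, l, hk, hl, hkl⟩ := h' n η hη
  have : ‖x k - x l‖ ≤ sSup {r : ℝ | ∃ k l : ℕ, n ≤ k ∧ n ≤ l ∧ r = ‖x k - x l‖} :=
    le_csSup ⟨B, by rintro _ ⟨k, l, _, _, rfl⟩; exact h k l⟩ ⟨k, l, hk, hl, rfl⟩
  linarith

variable [NormedSpace ℝ X]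

instance : Nonempty {φ : ℕ → ℕ // StrictMono φ} := ⟨⟨id, strictMono_id⟩⟩

theorem bddBelow_cca (x : ℕ → X) :
    BddBelow (Set.range fun φ : {φ : ℕ → ℕ // StrictMono φ} => cca (x ∘ φ.1)) :=
  ⟨0, by rintro _ ⟨φ, rfl⟩; exact ca_nonneg _⟩

theorem wu_nonneg (x : ℕ → X) (x₀ : X) : 0 ≤ wu x x₀ :=
  Real.sInf_nonneg (by rintro ε ⟨hε, _⟩; exact hε.le)

theorem bddBelow_wu (x : ℕ → X) (x₀ : X) :
    BddBelow (Set.range fun φ : {φ : ℕ → ℕ // StrictMono φ} => wu (x ∘ φ.1) x₀) :=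
  ⟨0, by rintro _ ⟨φ, rfl⟩; exact wu_nonneg _ _⟩

theorem wu_le {x : ℕ → X} {x₀ : X} {b : ℝ} (hb : 0 < b) (h : ∀ k, ‖x k - x₀‖ ≤ b) :
    wu x x₀ ≤ b := by
  refine csInf_le ⟨0, by rintro ε ⟨hε, _⟩; exact hε.le⟩ ⟨hb, 0, fun f hf => ?_⟩
  have : {k : ℕ | b < |f (x k - x₀)|} = ∅ := by
    ext k
    rw [Set.mem_ofPred_eq, Set.mem_empty_iff_false, iff_false, not_lt]
    have h1 := f.le_opNorm (x k - x₀)
    rw [Real.norm_eq_abs] at h1
    exact h1.trans ((mul_le_mul hf (h k) (norm_nonneg _) zero_le_one).trans (by rw [one_mul]))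
  rw [this]
  simp

theorem eq_of_weak {x y : X} (h : ∀ f : X →L[ℝ] ℝ, f x = f y) : x = y := by
  by_contra hne
  have h1 : x - y ≠ 0 := sub_ne_zero.mpr hne
  obtain ⟨f, _, hf⟩ := exists_dual_vector ℝ (x - y) (norm_ne_zero_iff.mpr h1)
  rw [map_sub, h f, sub_self] at hf
  have : ‖x - y‖ = 0 := by
    have h2 : ((‖x - y‖ : ℝ)) = (0 : ℝ) := hf.symm
    exact h2
  exact h1 (norm_eq_zero.mp this)

end General

/-- The Schreier condition. -/
def Schreier (F : Finset ℕ) : Prop := ∀ i ∈ F, F.card ≤ i + 1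

/-- The index set of the functionals. -/
abbrev Φ := {P : Finset ℕ × Finset ℕ // Schreier P.1 ∧ Schreier P.2 ∧
  ∀ i ∈ P.1, ∀ j ∈ P.2, i < j}

/-- The Banach space of the example. -/
abbrev X := lp (fun _ : Φ => ℝ) ⊤

/-- The indicator of a finite set. -/
noncomputable def ind (F : Finset ℕ) (k : ℕ) : ℝ := if k ∈ F then 1 else 0

theorem ind_nonneg (F : Finset ℕ) (k : ℕ) : 0 ≤ ind F k := by unfold ind; split_ifs <;> norm_num
theorem ind_le (F : Finset ℕ) (k : ℕ) : ind F k ≤ 1 := by unfold ind; split_ifs <;> norm_num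
theorem ind_mem {F : Finset ℕ} {k : ℕ} (h : k ∈ F) : ind F k = 1 := if_pos h
theorem ind_not_mem {F : Finset ℕ} {k : ℕ} (h : k ∉ F) : ind F k = 0 := if_neg h

/-- The coordinates of the vectors. -/
noncomputable def val (c : ℝ) (P : Φ) (k : ℕ) : ℝ := ind P.1.1 k - c * ind P.1.2 k

variable {c : ℝ}

theorem val_le (hc : 0 ≤ c) (P : Φ) (k : ℕ) : val c P k ≤ 1 := by
  unfold val
  have := ind_le P.1.1 k
  have := mul_nonneg hc (ind_nonneg P.1.2 k)
  linarith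

theorem le_val (hc : 0 ≤ c) (P : Φ) (k : ℕ) : -c ≤ val c P k := by
  unfold val
  have := ind_nonneg P.1.1 k
  have := mul_le_mul_of_nonneg_left (ind_le P.1.2 k) hc
  linarith

theorem abs_val_le (hc : 0 ≤ c) (hc1 : c ≤ 1) (P : Φ) (k : ℕ) : |val c P k| ≤ 1 :=
  abs_le.mpr ⟨by linarith [le_val hc P k], val_le hc P k⟩

theorem memlp_val (c : ℝ) (k : ℕ) : Memℓp (fun P : Φ => val c P k) ⊤ :=
  memℓp_infty ⟨1 + |c|, by
    rintro _ ⟨P, rfl⟩
    simp only [Real.norm_eq_abs]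
    unfold val
    refine (abs_sub _ _).trans ?_
    rw [abs_mul, abs_of_nonneg (ind_nonneg _ _), abs_of_nonneg (ind_nonneg _ _)]
    have h1 := ind_le P.1.1 k
    have h2 := mul_le_mul_of_nonneg_left (ind_le P.1.2 k) (abs_nonneg c)
    linarith⟩

/-- The vectors of the example. -/
noncomputable def e (c : ℝ) (k : ℕ) : X := ⟨fun P => val c P k, memlp_val c k⟩

/-- Evaluation at a coordinate. -/
noncomputable def ev (P : Φ) : X →L[ℝ] ℝ := lp.evalCLM ℝ (fun _ : Φ => ℝ) ⊤ P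

theorem ev_apply (P : Φ) (x : X) : ev P x = x P := rfl

theorem ev_e (P : Φ) (k : ℕ) : ev P (e c k) = val c P k := rfl

theorem abs_ev_le (P : Φ) (x : X) : |ev P x| ≤ ‖x‖ := lp.norm_apply_le_norm ENNReal.top_ne_zero x P

theorem norm_ev_le (P : Φ) : ‖ev P‖ ≤ 1 :=
  ContinuousLinearMap.opNorm_le_bound _ zero_le_one fun x => by
    rw [one_mul, Real.norm_eq_abs]; exact abs_ev_le P x

theorem norm_le_of_ev {x : X} {b : ℝ} (hb : 0 ≤ b) (h : ∀ P, |ev P x| ≤ b) : ‖x‖ ≤ b :=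
  lp.norm_le_of_forall_le hb h

theorem norm_e_le (hc : 0 ≤ c) (hc1 : c ≤ 1) (k : ℕ) : ‖e c k‖ ≤ 1 :=
  norm_le_of_ev zero_le_one fun P => by rw [ev_e]; exact abs_val_le hc hc1 P k

/-- The set of the example. -/
def A (c : ℝ) : Set X := Set.range (e c)

/-! ### The vectors form a weakly null sequence -/

/-- The end points of the blocks. -/
def a (ψ : ℕ → ℕ) : ℕ → ℕ
  | 0 => 0
  | i + 1 => a ψ i + 2 ^ i * (ψ (a ψ i) + 1)

theorem a_succ (ψ : ℕ → ℕ) (i : ℕ) : a ψ (i + 1) = a ψ i + 2 ^ i * (ψ (a ψ i) + 1) := rfl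

theorem a_mono (ψ : ℕ → ℕ) : Monotone (a ψ) :=
  monotone_nat_of_le_succ fun i => by rw [a_succ]; exact Nat.le_add_right _ _

/-- The lengths of the blocks. -/
def len (ψ : ℕ → ℕ) (i : ℕ) : ℕ := 2 ^ i * (ψ (a ψ i) + 1)

theorem len_pos (ψ : ℕ → ℕ) (i : ℕ) : 0 < len ψ i := by unfold len; positivity

theorem card_block (ψ : ℕ → ℕ) (i : ℕ) : (Finset.Ico (a ψ i) (a ψ (i + 1))).card = len ψ i := by
  rw [Nat.card_Ico, a_succ]
  unfold len
  omega

/-- The average of the indicator over a block. -/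
noncomputable def avg (ψ : ℕ → ℕ) (F : Finset ℕ) (i : ℕ) : ℝ :=
  (1 / (len ψ i : ℝ)) * ∑ t ∈ Finset.Ico (a ψ i) (a ψ (i + 1)), ind F (ψ t)

theorem avg_nonneg (ψ : ℕ → ℕ) (F : Finset ℕ) (i : ℕ) : 0 ≤ avg ψ F i := by
  unfold avg
  exact mul_nonneg (by positivity) (Finset.sum_nonneg fun _ _ => ind_nonneg _ _)

theorem avg_le_one (ψ : ℕ → ℕ) (F : Finset ℕ) (i : ℕ) : avg ψ F i ≤ 1 := by
  unfold avg
  have h1 : ∑ t ∈ Finset.Ico (a ψ i) (a ψ (i + 1)), ind F (ψ t) ≤ len ψ i := by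
    have h2 := Finset.sum_le_card_nsmul (Finset.Ico (a ψ i) (a ψ (i + 1))) (fun t => ind F (ψ t)) 1
      (fun t _ => ind_le _ _)
    rw [card_block] at h2
    simpa using h2
  have h3 : (0 : ℝ) < len ψ i := by exact_mod_cast len_pos ψ i
  rw [one_div, inv_mul_le_iff₀ h3, mul_one]
  exact h1

theorem avg_le_of_hit {ψ : ℕ → ℕ} (hψ : StrictMono ψ) {F : Finset ℕ} (hF : Schreier F) {s i : ℕ}
    (hs : s < a ψ i) (hsF : ψ s ∈ F) : avg ψ F i ≤ (1 / 2 : ℝ) ^ i := by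
  have h1 : ∑ t ∈ Finset.Ico (a ψ i) (a ψ (i + 1)), ind F (ψ t) ≤ (ψ (a ψ i) + 1 : ℝ) := by
    have h2 : ∑ t ∈ Finset.Ico (a ψ i) (a ψ (i + 1)), ind F (ψ t) =
        (((Finset.Ico (a ψ i) (a ψ (i + 1))).filter fun t => ψ t ∈ F).card : ℝ) := by
      unfold ind
      rw [Finset.sum_ite]
      simp
    have h3 : ((Finset.Ico (a ψ i) (a ψ (i + 1))).filter fun t => ψ t ∈ F).card ≤ F.card :=
      Finset.card_le_card_of_injOn ψ (fun t ht => (Finset.mem_filter.mp ht).2)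
        (hψ.injective.injOn)
    have h4 := hF _ hsF
    have h5 := hψ.monotone hs.le
    have h6 : ((Finset.Ico (a ψ i) (a ψ (i + 1))).filter fun t => ψ t ∈ F).card ≤
        ψ (a ψ i) + 1 := by omega
    rw [h2]
    exact_mod_cast h6
  unfold avg
  have h3 : (0 : ℝ) < len ψ i := by exact_mod_cast len_pos ψ i
  rw [one_div, inv_mul_le_iff₀ h3]
  refine h1.trans (le_of_eq ?_)
  unfold len
  push_cast
  rw [one_div, inv_pow]
  field_simp

theorem sum_avg_le {ψ : ℕ → ℕ} (hψ : StrictMono ψ) {F : Finset ℕ} (hF : Schreier F) (n : ℕ) :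
    ∑ i ∈ Finset.range n, avg ψ F i ≤ 1 + ∑ i ∈ Finset.range n, (1 / 2 : ℝ) ^ i := by
  induction n with
  | zero => simp
  | succ n ih =>
    rw [Finset.sum_range_succ, Finset.sum_range_succ]
    by_cases h : ∃ s, s < a ψ n ∧ ψ s ∈ F
    · obtain ⟨s, hs, hsF⟩ := h
      have := avg_le_of_hit hψ hF hs hsF
      linarith
    · have h0 : ∑ i ∈ Finset.range n, avg ψ F i = 0 := by
        apply Finset.sum_eq_zero
        intro i hi
        unfold avg
        rw [Finset.sum_eq_zero, mul_zero]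
        intro t ht
        apply ind_not_mem
        intro h1
        apply h
        refine ⟨t, ?_, h1⟩
        have h2 := (Finset.mem_Ico.mp ht).2
        have h3 : a ψ (i + 1) ≤ a ψ n := a_mono ψ (Finset.mem_range.mp hi)
        omega
      have h1 := avg_le_one ψ F n
      have h2 : (0 : ℝ) ≤ ∑ i ∈ Finset.range n, (1 / 2 : ℝ) ^ i :=
        Finset.sum_nonneg fun i _ => by positivity
      have h3 : (0 : ℝ) ≤ (1 / 2 : ℝ) ^ n := by positivity
      linarith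

theorem sum_avg_le_three {ψ : ℕ → ℕ} (hψ : StrictMono ψ) {F : Finset ℕ} (hF : Schreier F)
    (n : ℕ) : ∑ i ∈ Finset.range n, avg ψ F i ≤ 3 := by
  have h1 := sum_avg_le hψ hF n
  have h2 : ∑ i ∈ Finset.range n, (1 / 2 : ℝ) ^ i ≤ 2 := by
    have := sum_geometric_two_le n
    simpa using this
  linarith

/-- The block averages of the vectors. -/
noncomputable def blk (c : ℝ) (ψ : ℕ → ℕ) (i : ℕ) : X :=
  (1 / (len ψ i : ℝ)) • ∑ t ∈ Finset.Ico (a ψ i) (a ψ (i + 1)), e c (ψ t)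

theorem ev_blk (ψ : ℕ → ℕ) (P : Φ) (i : ℕ) :
    ev P (blk c ψ i) = avg ψ P.1.1 i - c * avg ψ P.1.2 i := by
  unfold blk avg
  rw [map_smul, map_sum, smul_eq_mul]
  have h1 : ∀ t, ev P (e c (ψ t)) = ind P.1.1 (ψ t) - c * ind P.1.2 (ψ t) := fun t => rfl
  rw [Finset.sum_congr rfl fun t _ => h1 t, Finset.sum_sub_distrib, ← Finset.mul_sum]
  ring

theorem norm_sum_blk_le (hc : 0 ≤ c) (hc1 : c ≤ 1) {ψ : ℕ → ℕ} (hψ : StrictMono ψ) (n : ℕ) :
    ‖∑ i ∈ Finset.range n, blk c ψ i‖ ≤ 3 := by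
  apply norm_le_of_ev (by norm_num)
  intro P
  rw [map_sum, Finset.sum_congr rfl fun i _ => ev_blk ψ P i, Finset.sum_sub_distrib,
    ← Finset.mul_sum]
  have h1 := sum_avg_le_three hψ P.2.1 n
  have h2 := sum_avg_le_three hψ P.2.2.1 n
  have h3 : 0 ≤ ∑ i ∈ Finset.range n, avg ψ P.1.1 i := Finset.sum_nonneg fun i _ => avg_nonneg _ _ _
  have h4 : 0 ≤ ∑ i ∈ Finset.range n, avg ψ P.1.2 i := Finset.sum_nonneg fun i _ => avg_nonneg _ _ _
  have h5 := mul_nonneg hc h4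
  have h6 : c * ∑ i ∈ Finset.range n, avg ψ P.1.2 i ≤ 1 * ∑ i ∈ Finset.range n, avg ψ P.1.2 i :=
    mul_le_mul_of_nonneg_right hc1 h4
  rw [abs_le]
  constructor <;> linarith

theorem eventually_lt (hc : 0 ≤ c) (hc1 : c ≤ 1) (f : X →L[ℝ] ℝ) {ε : ℝ} (hε : 0 < ε) :
    ∀ᶠ k in atTop, f (e c k) < ε := by
  by_contra h
  rw [not_eventually] at h
  obtain ⟨ψ, hψ, hψ'⟩ := extraction_of_frequently_atTop h
  have h1 : ∀ i, ε ≤ f (blk c ψ i) := by
    intro i
    unfold blk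
    rw [map_smul, map_sum, smul_eq_mul]
    have h3 : (0 : ℝ) < len ψ i := by exact_mod_cast len_pos ψ i
    rw [one_div, ← div_eq_inv_mul, le_div_iff₀ h3]
    have h4 := Finset.card_nsmul_le_sum (Finset.Ico (a ψ i) (a ψ (i + 1)))
      (fun t => f (e c (ψ t))) ε (fun t _ => not_lt.mp (hψ' t))
    rw [card_block, nsmul_eq_mul] at h4
    linarith
  obtain ⟨n, hn⟩ := exists_nat_gt (‖f‖ * 3 / ε)
  rw [div_lt_iff₀ hε] at hn
  have h2 := f.le_opNorm (∑ i ∈ Finset.range n, blk c ψ i)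
  have h3 := mul_le_mul_of_nonneg_left (norm_sum_blk_le hc hc1 hψ n) (norm_nonneg f)
  have h4 : (n : ℝ) * ε ≤ f (∑ i ∈ Finset.range n, blk c ψ i) := by
    rw [map_sum]
    have := Finset.card_nsmul_le_sum (Finset.range n) (fun i => f (blk c ψ i)) ε (fun i _ => h1 i)
    rw [Finset.card_range, nsmul_eq_mul] at this
    exact this
  have h5 := Real.le_norm_self (f (∑ i ∈ Finset.range n, blk c ψ i))
  linarith

theorem e_null (hc : 0 ≤ c) (hc1 : c ≤ 1) (f : X →L[ℝ] ℝ) :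
    Tendsto (fun k => f (e c k)) atTop (𝓝 0) := by
  rw [tendsto_order]
  constructor
  · intro b hb
    have := eventually_lt hc hc1 (-f) (neg_pos.mpr hb)
    filter_upwards [this] with k hk
    rw [_root_.neg_apply] at hk
    linarith
  · intro b hb
    exact eventually_lt hc hc1 f hb

/-! ### Auxiliary facts about sequences in `A` -/

theorem exists_index {x : ℕ → X} (hx : ∀ k, x k ∈ A c) : ∃ n : ℕ → ℕ, ∀ k, x k = e c (n k) := by
  choose n hn using hx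
  exact ⟨n, fun k => (hn k).symm⟩

theorem const_or_tendsto (n : ℕ → ℕ) :
    (∃ v, ∃ φ : ℕ → ℕ, StrictMono φ ∧ ∀ k, n (φ k) = v) ∨
    ∃ φ : ℕ → ℕ, StrictMono φ ∧ StrictMono (n ∘ φ) := by
  by_cases h : ∃ v, ∃ᶠ k in atTop, n k = v
  · obtain ⟨v, hv⟩ := h
    obtain ⟨φ, hφ, hφ'⟩ := extraction_of_frequently_atTop hv
    exact Or.inl ⟨v, φ, hφ, hφ'⟩
  · right
    push Not at h
    have h1 : Tendsto n atTop atTop := by
      rw [tendsto_atTop]
      intro b
      have h2 : ∀ᶠ k in atTop, ∀ v ∈ Finset.range b, n k ≠ v := by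
        rw [Filter.eventually_all_finset]
        intro v _
        exact h v
      filter_upwards [h2] with k hk
      by_contra hlt
      exact hk (n k) (Finset.mem_range.mpr (not_le.mp hlt)) rfl
    exact strictMono_subseq_of_tendsto_atTop h1

/-! ### The quantity `wbs` -/

theorem norm_cesaro_sub_le (hc : 0 ≤ c) {x : ℕ → X} (hx : ∀ k, x k ∈ A c)
    (k l : ℕ) : ‖cesaro x k - cesaro x l‖ ≤ 1 + c := by
  obtain ⟨n, hn⟩ := exists_index hx
  have key : ∀ (P : Φ) (k : ℕ), -c ≤ ev P (cesaro x k) ∧ ev P (cesaro x k) ≤ 1 := by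
    intro P k
    unfold cesaro
    rw [map_smul, map_sum, smul_eq_mul]
    have h1 : ∀ i, ev P (x i) = val c P (n i) := fun i => by rw [hn i, ev_e]
    rw [Finset.sum_congr rfl fun i _ => h1 i]
    have hk : (0 : ℝ) < (k : ℝ) + 1 := by positivity
    have h2 := Finset.card_nsmul_le_sum (Finset.range (k + 1)) (fun i => val c P (n i)) (-c)
      (fun i _ => le_val hc P _)
    have h3 := Finset.sum_le_card_nsmul (Finset.range (k + 1)) (fun i => val c P (n i)) 1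
      (fun i _ => val_le hc P _)
    rw [Finset.card_range, nsmul_eq_mul] at h2 h3
    push_cast at h2 h3
    rw [one_div, ← div_eq_inv_mul]
    constructor
    · rw [le_div_iff₀ hk]; linarith
    · rw [div_le_iff₀ hk]; linarith
  apply norm_le_of_ev (by linarith)
  intro P
  rw [map_sub, abs_le]
  have h1 := key P k
  have h2 := key P l
  constructor <;> linarith [h1.1, h1.2, h2.1, h2.2]

theorem ccaInf_le (hc : 0 ≤ c) {x : ℕ → X} (hx : ∀ k, x k ∈ A c) : ccaInf x ≤ 1 + c :=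
  (ciInf_le (bddBelow_cca x) ⟨id, strictMono_id⟩).trans
    (ca_le fun k l => norm_cesaro_sub_le hc hx k l)

/-- A sparse sequence of indices. -/
def N (k : ℕ) : ℕ := (k + 1) ^ 2

theorem N_strictMono : StrictMono N := by
  intro i j h
  unfold N
  exact Nat.pow_lt_pow_left (by omega) (by norm_num)

/-- Image of an interval under a sparse sequence. -/
theorem schreier_image {M : ℕ → ℕ} (hM : StrictMono M) (hM' : ∀ i, (i + 1) ^ 2 ≤ M i) {p q : ℕ}
    (h : q ≤ (p + 1) ^ 2) : Schreier ((Finset.Ico p q).image M) := by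
  intro i hi
  obtain ⟨t, ht, rfl⟩ := Finset.mem_image.mp hi
  have h1 : ((Finset.Ico p q).image M).card ≤ q - p := by
    refine Finset.card_image_le.trans ?_
    rw [Nat.card_Ico]
  have h2 := hM.monotone (Finset.mem_Ico.mp ht).1
  have h3 := hM' p
  omega

theorem mem_image_Ico {M : ℕ → ℕ} (hM : StrictMono M) {p q i : ℕ} :
    M i ∈ (Finset.Ico p q).image M ↔ p ≤ i ∧ i < q := by
  rw [Finset.mem_image]
  constructor
  · rintro ⟨t, ht, h⟩
    rw [← hM.injective h]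
    exact Finset.mem_Ico.mp ht
  · intro h
    exact ⟨i, Finset.mem_Ico.mpr h, rfl⟩

theorem sum_ind {M : ℕ → ℕ} (hM : StrictMono M) {p q n : ℕ} (hpq : p ≤ q) (hqn : q ≤ n) :
    ∑ i ∈ Finset.range n, ind ((Finset.Ico p q).image M) (M i) = (q : ℝ) - p := by
  have h1 : ∀ i, ind ((Finset.Ico p q).image M) (M i) = if p ≤ i ∧ i < q then 1 else 0 := by
    intro i
    unfold ind
    simp only [mem_image_Ico hM]
  rw [Finset.sum_congr rfl fun i _ => h1 i, Finset.sum_ite]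
  have h2 : (Finset.range n).filter (fun i => p ≤ i ∧ i < q) = Finset.Ico p q := by
    ext i
    simp only [Finset.mem_filter, Finset.mem_range, Finset.mem_Ico]
    omega
  rw [h2]
  simp only [Finset.sum_const, Nat.card_Ico, nsmul_eq_mul, mul_one, smul_zero, add_zero]
  rw [Nat.cast_sub hpq]

theorem sum_ind_zero {M : ℕ → ℕ} (hM : StrictMono M) {p q n : ℕ} (hnp : n ≤ p) :
    ∑ i ∈ Finset.range n, ind ((Finset.Ico p q).image M) (M i) = 0 := by
  apply Finset.sum_eq_zero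
  intro i hi
  apply ind_not_mem
  rw [mem_image_Ico hM]
  have := Finset.mem_range.mp hi
  omega

theorem le_cca (hc : 0 ≤ c) (hc1 : c ≤ 1) {M : ℕ → ℕ} (hM : StrictMono M) (hM' : ∀ i, (i + 1) ^ 2 ≤ M i) :
    1 + c ≤ cca (fun i => e c (M i)) := by
  apply le_ca (B := 1 + c)
  · intro k l
    exact norm_cesaro_sub_le hc (fun k => ⟨M k, rfl⟩) k l
  intro n η hη
  obtain ⟨r₀, hr₀⟩ := exists_nat_gt (3 / η)
  set r : ℕ := max (n + 2) r₀ with hr
  have hrn : n + 2 ≤ r := le_max_left _ _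
  have hr2 : r ≤ r ^ 2 := Nat.le_self_pow (by norm_num) r
  have hr4 : r ^ 2 ≤ r ^ 4 := Nat.pow_le_pow_right (by omega) (by norm_num)
  have hrη : 3 / η < r := lt_of_lt_of_le hr₀ (by exact_mod_cast le_max_right _ _)
  rw [div_lt_iff₀ hη] at hrη
  have hrpos : (0 : ℝ) < r := by
    have : 0 < r := by omega
    exact_mod_cast this
  -- the functional
  set F₁ := (Finset.Ico r (r ^ 2)).image M with hF₁
  set F₂ := (Finset.Ico (r ^ 2) (r ^ 4)).image M with hF₂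
  have hS₁ : Schreier F₁ := schreier_image hM hM' (by nlinarith)
  have hS₂ : Schreier F₂ := schreier_image hM hM' (by
    calc r ^ 4 = (r ^ 2) ^ 2 := by ring
      _ ≤ (r ^ 2 + 1) ^ 2 := Nat.pow_le_pow_left (by omega) 2)
  have hlt : ∀ i ∈ F₁, ∀ j ∈ F₂, i < j := by
    intro i hi j hj
    obtain ⟨s, hs, rfl⟩ := Finset.mem_image.mp hi
    obtain ⟨t, ht, rfl⟩ := Finset.mem_image.mp hj
    exact hM (lt_of_lt_of_le (Finset.mem_Ico.mp hs).2 (Finset.mem_Ico.mp ht).1)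
  let P : Φ := ⟨(F₁, F₂), hS₁, hS₂, hlt⟩
  have hk1 : r ^ 2 - 1 + 1 = r ^ 2 := by omega
  have hl1 : r ^ 4 - 1 + 1 = r ^ 4 := by omega
  refine ⟨r ^ 2 - 1, r ^ 4 - 1, by omega, by omega, ?_⟩
  refine le_trans ?_ (abs_ev_le P _)
  refine le_trans ?_ (le_abs_self _)
  rw [map_sub]
  have hces : ∀ m, ev P (cesaro (fun i => e c (M i)) m) = (1 / ((m : ℝ) + 1)) *
      (∑ i ∈ Finset.range (m + 1), ind F₁ (M i) -
        c * ∑ i ∈ Finset.range (m + 1), ind F₂ (M i)) := by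
    intro m
    unfold cesaro
    rw [map_smul, map_sum, smul_eq_mul, Finset.mul_sum _ _ c, ← Finset.sum_sub_distrib]
    rfl
  have hcast2 : ((r ^ 2 - 1 : ℕ) : ℝ) + 1 = (r : ℝ) ^ 2 := by
    have : ((r ^ 2 - 1 + 1 : ℕ) : ℝ) = ((r ^ 2 : ℕ) : ℝ) := by rw [hk1]
    push_cast at this
    exact this
  have hcast4 : ((r ^ 4 - 1 : ℕ) : ℝ) + 1 = (r : ℝ) ^ 4 := by
    have : ((r ^ 4 - 1 + 1 : ℕ) : ℝ) = ((r ^ 4 : ℕ) : ℝ) := by rw [hl1]
    push_cast at this
    exact this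
  rw [hces, hces, hk1, hl1, hcast2, hcast4, sum_ind hM hr2 le_rfl, sum_ind hM hr2 hr4,
    sum_ind_zero hM le_rfl, sum_ind hM hr4 le_rfl]
  push_cast
  have e1 : 1 / (r : ℝ) ^ 2 * ((r : ℝ) ^ 2 - r - c * 0) -
      1 / (r : ℝ) ^ 4 * ((r : ℝ) ^ 2 - r - c * ((r : ℝ) ^ 4 - (r : ℝ) ^ 2)) =
      1 + c - (1 / r) - (1 / r ^ 2) + 1 / r ^ 3 - c * (1 / r ^ 2) := by
    field_simp
    ring
  have hr1 : (1 : ℝ) ≤ r := by
    have : 1 ≤ r := by omega
    exact_mod_cast this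
  have e2 : 1 / (r : ℝ) ^ 2 ≤ 1 / r := by
    apply one_div_le_one_div_of_le hrpos
    nlinarith
  have e3 : c * (1 / (r : ℝ) ^ 2) ≤ 1 * (1 / r) :=
    mul_le_mul hc1 e2 (by positivity) zero_le_one
  have e4 : 0 ≤ 1 / (r : ℝ) ^ 3 := by positivity
  have e5 : 3 / (r : ℝ) ≤ η := by
    rw [div_le_iff₀ hrpos]; linarith
  have e6 : 3 / (r : ℝ) = 3 * (1 / r) := by ring
  linarith

theorem exists_sparse (φ : {φ : ℕ → ℕ // StrictMono φ}) :
    StrictMono (N ∘ φ.1) ∧ ∀ i, (i + 1) ^ 2 ≤ (N ∘ φ.1) i := by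
  refine ⟨N_strictMono.comp φ.2, fun i => ?_⟩
  have h1 : i ≤ φ.1 i := φ.2.id_le i
  exact N_strictMono.monotone h1

theorem wbs_eq (hc : 0 ≤ c) (hc1 : c ≤ 1) : wbs (A c) = 1 + c := by
  have hbdd : ∀ r ∈ {r : ℝ | ∃ x : ℕ → X, (∀ k, x k ∈ A c) ∧ (∃ x₀, WeaklyConverges x x₀) ∧
      r = ccaInf x}, r ≤ 1 + c := by
    rintro r ⟨x, hx, _, rfl⟩
    exact ccaInf_le hc hx
  have hmem : ccaInf (fun i => e c (N i)) ∈ {r : ℝ | ∃ x : ℕ → X, (∀ k, x k ∈ A c) ∧
      (∃ x₀, WeaklyConverges x x₀) ∧ r = ccaInf x} := by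
    refine ⟨fun i => e c (N i), fun i => ⟨N i, rfl⟩, ⟨0, fun f => ?_⟩, rfl⟩
    rw [map_zero]
    exact (e_null hc hc1 f).comp N_strictMono.tendsto_atTop
  apply le_antisymm
  · exact csSup_le ⟨_, hmem⟩ hbdd
  · refine le_trans ?_ (le_csSup ⟨1 + c, hbdd⟩ hmem)
    apply le_ciInf
    intro φ
    obtain ⟨h1, h2⟩ := exists_sparse φ
    exact le_cca hc hc1 h1 h2

/-! ### The quantity `swu` -/

theorem wuInf_le (hc : 0 ≤ c) (hc1 : c ≤ 1) {x : ℕ → X} {x₀ : X} (hx : ∀ k, x k ∈ A c)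
    (hx₀ : WeaklyConverges x x₀) : wuInf x x₀ ≤ 1 := by
  obtain ⟨n, hn⟩ := exists_index hx
  rcases const_or_tendsto n with ⟨v, φ, hφ, hφ'⟩ | ⟨φ, hφ, hφ'⟩
  · refine (ciInf_le (bddBelow_wu x x₀) ⟨φ, hφ⟩).trans ?_
    apply wu_le one_pos
    intro k
    have h1 : x₀ = e c v := by
      apply eq_of_weak
      intro f
      have h2 := (hx₀ f).comp hφ.tendsto_atTop
      have h3 : ((fun k => f (x k)) ∘ φ) = fun _ => f (e c v) := by
        funext k
        rw [Function.comp_apply, hn, hφ']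
      rw [h3] at h2
      exact tendsto_nhds_unique h2 tendsto_const_nhds |>.symm ▸ rfl
    rw [h1, Function.comp_apply, hn, hφ', sub_self, norm_zero]
    exact zero_le_one
  · refine (ciInf_le (bddBelow_wu x x₀) ⟨φ, hφ⟩).trans ?_
    apply wu_le one_pos
    intro k
    have h1 : x₀ = 0 := by
      apply eq_of_weak
      intro f
      have h2 := (hx₀ f).comp hφ.tendsto_atTop
      have h3 : ((fun k => f (x k)) ∘ φ) = (fun k => f (e c k)) ∘ (n ∘ φ) := by
        funext k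
        rw [Function.comp_apply, hn]
        rfl
      rw [h3] at h2
      have h4 := (e_null hc hc1 f).comp hφ'.tendsto_atTop
      rw [map_zero]
      exact tendsto_nhds_unique h2 h4
    rw [h1, sub_zero, Function.comp_apply, hn]
    exact norm_e_le hc hc1 _

theorem le_wu {M : ℕ → ℕ} (hM : StrictMono M) (hM' : ∀ i, (i + 1) ^ 2 ≤ M i)
    (hc : 0 ≤ c) (hc1 : c ≤ 1) : 1 ≤ wu (fun i => e c (M i)) 0 := by
  unfold wu
  apply le_csInf
  · refine ⟨1, one_pos, 0, fun f hf => ?_⟩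
    have : {k : ℕ | 1 < |f (e c (M k) - 0)|} = ∅ := by
      ext k
      rw [Set.mem_ofPred_eq, Set.mem_empty_iff_false, iff_false, not_lt, sub_zero]
      have h1 := f.le_opNorm (e c (M k))
      rw [Real.norm_eq_abs] at h1
      exact h1.trans ((mul_le_mul hf (norm_e_le hc hc1 _) (norm_nonneg _) zero_le_one).trans
        (by rw [one_mul]))
    rw [this]
    simp
  · rintro ε ⟨hε, n, hn⟩
    by_contra hlt
    push Not at hlt
    set F := (Finset.Ico n (2 * n + 1)).image M with hF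
    have hS : Schreier F := schreier_image hM hM' (by nlinarith)
    let P : Φ := ⟨(F, ∅), hS, by intro i hi; simp at hi, by intro i _ j hj; simp at hj⟩
    have h1 := hn (ev P) (norm_ev_le P)
    have h2 : (Finset.Ico n (2 * n + 1) : Set ℕ) ⊆ {k : ℕ | ε < |ev P (e c (M k) - 0)|} := by
      intro k hk
      rw [Finset.coe_Ico] at hk
      rw [Set.mem_ofPred_eq, sub_zero, ev_e]
      have h3 : M k ∈ F := (mem_image_Ico hM).mpr hk
      have h4 : val c P (M k) = 1 := by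
        unfold val
        have h5 : ind P.1.1 (M k) = 1 := ind_mem h3
        have h6 : ind P.1.2 (M k) = 0 := ind_not_mem (by simp [P])
        rw [h5, h6]; ring
      rw [h4, abs_one]
      exact hlt
    have h3 := (Set.encard_le_encard h2).trans h1
    rw [Set.encard_coe_eq_coe_finsetCard, Nat.card_Ico] at h3
    have h4 : 2 * n + 1 - n ≤ n := by exact_mod_cast h3
    omega

theorem swu_eq (hc : 0 ≤ c) (hc1 : c ≤ 1) : swu (A c) = 1 := by
  have hbdd : ∀ r ∈ {r : ℝ | ∃ (x : ℕ → X) (x₀ : X), (∀ k, x k ∈ A c) ∧ WeaklyConverges x x₀ ∧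
      r = wuInf x x₀}, r ≤ 1 := by
    rintro r ⟨x, x₀, hx, hx₀, rfl⟩
    exact wuInf_le hc hc1 hx hx₀
  have hmem : wuInf (fun i => e c (N i)) 0 ∈ {r : ℝ | ∃ (x : ℕ → X) (x₀ : X),
      (∀ k, x k ∈ A c) ∧ WeaklyConverges x x₀ ∧ r = wuInf x x₀} := by
    refine ⟨fun i => e c (N i), 0, fun i => ⟨N i, rfl⟩, fun f => ?_, rfl⟩
    rw [map_zero]
    exact (e_null hc hc1 f).comp N_strictMono.tendsto_atTop
  apply le_antisymm
  · exact csSup_le ⟨_, hmem⟩ hbdd
  · refine le_trans ?_ (le_csSup ⟨1, hbdd⟩ hmem)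
    apply le_ciInf
    intro φ
    obtain ⟨h1, h2⟩ := exists_sparse φ
    exact le_wu h1 h2 hc hc1

/-! ### The quantity `sm` -/

theorem generates (c : ℝ) :
    GeneratesL1 (fun k => (fun i => e c (N i)) k - 0) (1 / 2) := by
  intro F hF hcard α
  -- the set of indices with coefficients of one sign
  have key : ∀ G ⊆ F, |∑ i ∈ G, α i| ≤ ‖∑ i ∈ F, α i • ((fun i => e c (N i)) i - 0)‖ := by
    intro G hG
    have hS : Schreier (G.image N) := by
      intro j hj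
      obtain ⟨i, hi, rfl⟩ := Finset.mem_image.mp hj
      have h1 := (Finset.card_image_le (s := G) (f := N)).trans (Finset.card_le_card hG)
      have h2 := hcard i (hG hi)
      have h3 : i + 1 ≤ N i := Nat.le_self_pow (by norm_num) _
      omega
    let P : Φ := ⟨(G.image N, ∅), hS, by intro i hi; simp at hi, by intro i _ j hj; simp at hj⟩
    refine le_trans (le_of_eq ?_) (abs_ev_le P _)
    congr 1
    rw [map_sum]
    have h1 : ∀ i, ev P (α i • ((fun i => e c (N i)) i - 0)) = if i ∈ G then α i else 0 := by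
      intro i
      rw [sub_zero, map_smul, smul_eq_mul]
      change α i * val c P (N i) = _
      unfold val
      have h6 : ind P.1.2 (N i) = 0 := ind_not_mem (by simp [P])
      have h7 : ind P.1.1 (N i) = if i ∈ G then 1 else 0 := by
        unfold ind
        have h8 : N i ∈ P.1.1 ↔ i ∈ G := by
          change N i ∈ G.image N ↔ _
          rw [Finset.mem_image]
          constructor
          · rintro ⟨j, hj, hj'⟩
            rwa [← N_strictMono.injective hj']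
          · intro h
            exact ⟨i, h, rfl⟩
        simp only [h8]
      rw [h6, h7]
      split_ifs <;> ring
    rw [Finset.sum_congr rfl fun i _ => h1 i, Finset.sum_ite, Finset.sum_const_zero, add_zero]
    congr 1
    ext i
    rw [Finset.mem_filter]
    exact ⟨fun h => ⟨hG h, h⟩, fun h => h.2⟩
  have h1 := key (F.filter fun i => 0 ≤ α i) (Finset.filter_subset _ _)
  have h2 := key (F.filter fun i => ¬ 0 ≤ α i) (Finset.filter_subset _ _)
  have h3 := Finset.sum_filter_add_sum_filter_not F (fun i => 0 ≤ α i) (fun i => |α i|)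
  have h4 : ∑ i ∈ F.filter (fun i => 0 ≤ α i), |α i| = ∑ i ∈ F.filter (fun i => 0 ≤ α i), α i :=
    Finset.sum_congr rfl fun i hi => abs_of_nonneg (Finset.mem_filter.mp hi).2
  have h5 : ∑ i ∈ F.filter (fun i => ¬ 0 ≤ α i), |α i| =
      -∑ i ∈ F.filter (fun i => ¬ 0 ≤ α i), α i := by
    rw [← Finset.sum_neg_distrib]
    exact Finset.sum_congr rfl fun i hi => abs_of_neg (not_le.mp (Finset.mem_filter.mp hi).2)
  rw [← h3, h4, h5]
  have h6 := le_abs_self (∑ i ∈ F.filter (fun i => 0 ≤ α i), α i)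
  have h7 := neg_le_abs (∑ i ∈ F.filter (fun i => ¬ 0 ≤ α i), α i)
  linarith

theorem sum_alt (n : ℕ) : ∑ i ∈ Finset.range n, (-1 : ℝ) ^ i = (1 - (-1) ^ n) / 2 := by
  induction n with
  | zero => simp
  | succ n ih => rw [Finset.sum_range_succ, ih, pow_succ]; ring

theorem sum_alt_Ico {p q : ℕ} (h : p ≤ q) :
    ∑ i ∈ Finset.Ico p q, (-1 : ℝ) ^ i = ((-1) ^ p - (-1) ^ q) / 2 := by
  rw [Finset.sum_Ico_eq_sub _ h, sum_alt, sum_alt]
  ring

theorem abs_sum_alt_Ico {p q : ℕ} (h : p ≤ q) : |∑ i ∈ Finset.Ico p q, (-1 : ℝ) ^ i| ≤ 1 := by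
  rw [sum_alt_Ico h]
  rcases neg_one_pow_eq_or ℝ p with h1 | h1 <;> rcases neg_one_pow_eq_or ℝ q with h2 | h2 <;>
    rw [h1, h2] <;> norm_num

/-- The crucial upper bound for alternating sums. -/
theorem alt_bound (hc : 0 ≤ c) (hc1 : c ≤ 1) {M : ℕ → ℕ} (hM : StrictMono M) (P : Φ) (p q : ℕ)
    (hpq : p ≤ q) (σ : ℝ) (hσ : σ = 1 ∨ σ = -1) :
    σ * ∑ i ∈ Finset.Ico p q, (-1 : ℝ) ^ i * val c P (M i) ≤ ((q : ℝ) - p) / 2 + 1 := by
  classical
  have hex : ∃ i, p ≤ i ∧ (M i ∈ P.1.2 ∨ q ≤ i) := ⟨q, hpq, Or.inr le_rfl⟩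
  set j := Nat.find hex with hj
  have hj1 := Nat.find_spec hex
  rw [← hj] at hj1
  have hj2 : j ≤ q := Nat.find_min' hex ⟨hpq, Or.inr le_rfl⟩
  have hσ1 : |σ| = 1 := by rcases hσ with h | h <;> rw [h] <;> simp
  rw [← Finset.sum_Ico_consecutive _ hj1.1 hj2, mul_add, Finset.mul_sum, Finset.mul_sum]
  -- the first part
  have b1 : ∑ i ∈ Finset.Ico p j, σ * ((-1 : ℝ) ^ i * val c P (M i)) ≤
      ∑ i ∈ Finset.Ico p j, (1 / 2 + σ / 2 * (-1 : ℝ) ^ i) := by
    apply Finset.sum_le_sum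
    intro i hi
    have hi' := Finset.mem_Ico.mp hi
    have h1 : M i ∉ P.1.2 := fun h => Nat.find_min hex hi'.2 ⟨hi'.1, Or.inl h⟩
    have h2 : val c P (M i) = ind P.1.1 (M i) := by
      unfold val; rw [ind_not_mem h1]; ring
    rw [h2]
    have h3 := ind_nonneg P.1.1 (M i)
    have h4 := ind_le P.1.1 (M i)
    rcases hσ with h | h <;> rcases neg_one_pow_eq_or ℝ i with h5 | h5 <;> rw [h, h5] <;> linarith
  have b2 : ∑ i ∈ Finset.Ico j q, σ * ((-1 : ℝ) ^ i * val c P (M i)) ≤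
      ∑ i ∈ Finset.Ico j q, (1 / 2 - σ / 2 * (-1 : ℝ) ^ i) := by
    apply Finset.sum_le_sum
    intro i hi
    have hi' := Finset.mem_Ico.mp hi
    have h1 : M i ∉ P.1.1 := by
      intro h
      have hjq : ¬ q ≤ j := by omega
      have h2 : M j ∈ P.1.2 := hj1.2.resolve_right hjq
      have h3 := P.2.2.2 _ h _ h2
      have h4 := hM.monotone hi'.1
      omega
    have h2 : val c P (M i) = -(c * ind P.1.2 (M i)) := by
      unfold val; rw [ind_not_mem h1]; ring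
    rw [h2]
    have h3 := mul_nonneg hc (ind_nonneg P.1.2 (M i))
    have h4 : c * ind P.1.2 (M i) ≤ 1 * 1 :=
      mul_le_mul hc1 (ind_le _ _) (ind_nonneg _ _) zero_le_one
    rcases hσ with h | h <;> rcases neg_one_pow_eq_or ℝ i with h5 | h5 <;> rw [h, h5] <;> linarith
  have r1 : ∑ i ∈ Finset.Ico p j, (1 / 2 + σ / 2 * (-1 : ℝ) ^ i) =
      ((j : ℝ) - p) * (1 / 2) + σ / 2 * ∑ i ∈ Finset.Ico p j, (-1 : ℝ) ^ i := by
    rw [Finset.sum_add_distrib, ← Finset.mul_sum, Finset.sum_const, Nat.card_Ico, nsmul_eq_mul,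
      Nat.cast_sub hj1.1]
  have r2 : ∑ i ∈ Finset.Ico j q, (1 / 2 - σ / 2 * (-1 : ℝ) ^ i) =
      ((q : ℝ) - j) * (1 / 2) - σ / 2 * ∑ i ∈ Finset.Ico j q, (-1 : ℝ) ^ i := by
    rw [Finset.sum_sub_distrib, ← Finset.mul_sum, Finset.sum_const, Nat.card_Ico, nsmul_eq_mul,
      Nat.cast_sub hj2]
  rw [r1] at b1
  rw [r2] at b2
  have c1 : |σ / 2 * ∑ i ∈ Finset.Ico p j, (-1 : ℝ) ^ i| ≤ 1 / 2 := by
    rw [abs_mul, abs_div, hσ1, abs_two]
    have := abs_sum_alt_Ico hj1.1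
    linarith
  have c2 : |σ / 2 * ∑ i ∈ Finset.Ico j q, (-1 : ℝ) ^ i| ≤ 1 / 2 := by
    rw [abs_mul, abs_div, hσ1, abs_two]
    have := abs_sum_alt_Ico hj2
    linarith
  have d1 := (abs_le.mp c1).2
  have d2 := (abs_le.mp c2).1
  linarith

theorem le_half (hc : 0 ≤ c) (hc1 : c ≤ 1) {δ : ℝ} (hδ : 0 < δ) {x : ℕ → X} {x₀ : X}
    (hx : ∀ k, x k ∈ A c) (hg : GeneratesL1 (fun k => x k - x₀) δ) : δ ≤ 1 / 2 := by
  obtain ⟨n, hn⟩ := exists_index hx
  -- the indices are distinct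
  have hinj : Function.Injective fun k => n (k + 1) := by
    intro i j hij
    by_contra hne
    have hne' : i + 1 ≠ j + 1 := by omega
    have h1 := hg {i + 1, j + 1} ⟨i + 1, by simp⟩ (by
      intro k hk
      rw [Finset.card_pair hne']
      simp only [Finset.mem_insert, Finset.mem_singleton] at hk
      omega) (fun k => if k = i + 1 then 1 else -1)
    dsimp only at h1
    rw [Finset.sum_pair hne', Finset.sum_pair hne', if_pos rfl, if_neg (Ne.symm hne'), one_smul,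
      hn, hn] at h1
    have h2 : n (i + 1) = n (j + 1) := hij
    rw [h2] at h1
    have h3 : e c (n (j + 1)) - x₀ + (-1 : ℝ) • (e c (n (j + 1)) - x₀) = 0 := by
      rw [neg_smul, one_smul]; abel
    rw [h3, norm_zero, abs_one, abs_neg, abs_one] at h1
    linarith
  obtain ⟨φ, hφ, hφ'⟩ := strictMono_subseq_of_tendsto_atTop hinj.nat_tendsto_atTop
  set g : ℕ → ℕ := fun i => φ i + 1 with hg'
  have hgm : StrictMono g := fun i j h => Nat.add_lt_add_right (hφ h) 1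
  have hgi : ∀ i, i + 1 ≤ g i := fun i => Nat.add_le_add_right (hφ.id_le i) 1
  set M : ℕ → ℕ := fun i => n (g i) with hM
  have hMm : StrictMono M := hφ'
  have key : ∀ m : ℕ, δ * (2 * m) ≤ m + 1 := by
    intro m
    by_cases hm : m = 0
    · subst hm; simp
    have hle : 2 * m ≤ 4 * m := by omega
    have hcard : ((Finset.Ico (2 * m) (4 * m)).image g).card = 2 * m := by
      rw [Finset.card_image_of_injective _ hgm.injective, Nat.card_Ico]
      omega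
    have h1 := hg ((Finset.Ico (2 * m) (4 * m)).image g)
      ⟨g (2 * m), Finset.mem_image.mpr ⟨2 * m, Finset.mem_Ico.mpr (by omega), rfl⟩⟩ (by
        intro k hk
        rw [hcard]
        obtain ⟨i, hi, rfl⟩ := Finset.mem_image.mp hk
        have h2 := (Finset.mem_Ico.mp hi).1
        have h3 := hgi i
        omega) (fun k => (-1 : ℝ) ^ (Function.invFun g k))
    have hinv : ∀ i, Function.invFun g (g i) = i := Function.leftInverse_invFun hgm.injective
    rw [Finset.sum_image hgm.injective.injOn, Finset.sum_image hgm.injective.injOn] at h1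
    simp only [hinv] at h1
    have h2 : ∑ i ∈ Finset.Ico (2 * m) (4 * m), |(-1 : ℝ) ^ i| = 2 * m := by
      have h3 : ∀ i : ℕ, |(-1 : ℝ) ^ i| = 1 := fun i => by
        rw [abs_pow, abs_neg, abs_one, one_pow]
      rw [Finset.sum_congr rfl fun i _ => h3 i, Finset.sum_const, Nat.card_Ico, nsmul_eq_mul,
        Nat.cast_sub hle]
      push_cast
      ring
    have h3 : ∑ i ∈ Finset.Ico (2 * m) (4 * m), (-1 : ℝ) ^ i • (x (g i) - x₀) =
        ∑ i ∈ Finset.Ico (2 * m) (4 * m), (-1 : ℝ) ^ i • e c (M i) := by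
      have h4 : ∀ i, (-1 : ℝ) ^ i • (x (g i) - x₀) = (-1 : ℝ) ^ i • e c (M i) -
          (-1 : ℝ) ^ i • x₀ := fun i => by rw [hn, smul_sub]
      rw [Finset.sum_congr rfl fun i _ => h4 i, Finset.sum_sub_distrib, ← Finset.sum_smul,
        sum_alt_Ico hle]
      have h5 : (-1 : ℝ) ^ (2 * m) = 1 := by rw [pow_mul]; norm_num
      have h6 : (-1 : ℝ) ^ (4 * m) = 1 := by rw [pow_mul]; norm_num
      rw [h5, h6]
      simp
    rw [h2, h3] at h1
    refine h1.trans ?_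
    apply norm_le_of_ev (by positivity)
    intro P
    have h4 : ev P (∑ i ∈ Finset.Ico (2 * m) (4 * m), (-1 : ℝ) ^ i • e c (M i)) =
        ∑ i ∈ Finset.Ico (2 * m) (4 * m), (-1 : ℝ) ^ i * val c P (M i) := by
      rw [map_sum]
      exact Finset.sum_congr rfl fun i _ => by rw [map_smul, smul_eq_mul, ev_e]
    rw [h4]
    have h5 := alt_bound hc hc1 hMm P (2 * m) (4 * m) hle 1 (Or.inl rfl)
    have h6 := alt_bound hc hc1 hMm P (2 * m) (4 * m) hle (-1) (Or.inr rfl)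
    push_cast at h5 h6
    rw [abs_le]
    constructor <;> linarith
  by_contra hlt
  push Not at hlt
  obtain ⟨m, hm⟩ := exists_nat_gt (1 / (2 * δ - 1))
  have h1 := key m
  rw [div_lt_iff₀ (by linarith)] at hm
  linarith

theorem sm_eq (hc : 0 ≤ c) (hc1 : c ≤ 1) : sm (A c) = 1 / 2 := by
  have hbdd : ∀ r ∈ {δ : ℝ | 0 < δ ∧ ∃ (x : ℕ → X) (x₀ : X), (∀ k, x k ∈ A c) ∧
      WeaklyConverges x x₀ ∧ GeneratesL1 (fun k => x k - x₀) δ}, r ≤ 1 / 2 := by
    rintro r ⟨hr, x, x₀, hx, _, hg⟩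
    exact le_half hc hc1 hr hx hg
  have hmem : (1 / 2 : ℝ) ∈ {δ : ℝ | 0 < δ ∧ ∃ (x : ℕ → X) (x₀ : X), (∀ k, x k ∈ A c) ∧
      WeaklyConverges x x₀ ∧ GeneratesL1 (fun k => x k - x₀) δ} := by
    refine ⟨by norm_num, fun i => e c (N i), 0, fun i => ⟨N i, rfl⟩, fun f => ?_, generates c⟩
    rw [map_zero]
    exact (e_null hc hc1 f).comp N_strictMono.tendsto_atTop
  exact le_antisymm (csSup_le ⟨_, hmem⟩ hbdd) (le_csSup ⟨1 / 2, hbdd⟩ hmem)

theorem isBounded_A (hc : 0 ≤ c) (hc1 : c ≤ 1) : Bornology.IsBounded (A c) := by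
  rw [isBounded_iff_forall_norm_le]
  exact ⟨1, by rintro _ ⟨k, rfl⟩; exact norm_e_le hc hc1 k⟩

/-- For every `c ∈ [0, 1]` there is a bounded subset `A` of a real Banach space with
`sm A = 1 / 2`, `wbs A = 1 + c` and `swu A = 1`.  In particular (`c = 1 / 2`) there is one with
`2 sm A < wbs A < 2 swu A`. -/
theorem result :
    (∀ c : ℝ, 0 ≤ c → c ≤ 1 →
      ∃ (X : Type) (_ : NormedAddCommGroup X) (_ : NormedSpace ℝ X) (_ : CompleteSpace X)
        (A : Set X), Bornology.IsBounded A ∧ sm A = 1 / 2 ∧ wbs A = 1 + c ∧ swu A = 1) ∧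
    ∃ (X : Type) (_ : NormedAddCommGroup X) (_ : NormedSpace ℝ X) (_ : CompleteSpace X)
      (A : Set X), Bornology.IsBounded A ∧ 2 * sm A < wbs A ∧ wbs A < 2 * swu A := by
  constructor
  · intro c hc hc1
    exact ⟨X, inferInstance, inferInstance, inferInstance, A c, isBounded_A hc hc1,
      sm_eq hc hc1, wbs_eq hc hc1, swu_eq hc hc1⟩
  · have hc : (0 : ℝ) ≤ 1 / 2 := by norm_num
    have hc1 : (1 / 2 : ℝ) ≤ 1 := by norm_num
    refine ⟨X, inferInstance, inferInstance, inferInstance, A (1 / 2), isBounded_A hc hc1, ?_, ?_⟩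
    · rw [sm_eq hc hc1, wbs_eq hc hc1]; norm_num
    · rw [swu_eq hc hc1, wbs_eq hc hc1]; norm_num

end Pool.Agent.Results.MP_b2e8e7_an.SchreierFunctionals
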